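import Pool.Agent.N734.QP.Pull

/-!
# Limits of the varieties for which Q1 holds
-/

set_option autoImplicit false
set_option linter.unusedSectionVars false
set_option linter.unusedVariables false

namespace Pool.Agent.U247.TP

open MvPolynomial Pool.Agent.Y129.TA
open Pool.Agent.Y129.TB (IsConeOver InTube Approximable DimLEOver form_map eval_map_alg BaseField)
open Pool.Agent.X271.TQ Pool.Agent.N734.QP
open Pool.Agent.R388.TP (exists_gens small_of_approximable dimGE_of_small)

variable {p : ℕ} [hp : Fact p.Prime] {C F K E : Type} [Field C] [Field F] [CharP F p] [Field K]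
  [Field E] [Algebra K C] [Algebra E F] {ι κ : Type} [Fintype ι] [Fintype κ]

/-- The values of the polynomials `P` and `Q` at the points of the unit ball of `C ^ ι` differ by at most
`ε`. -/
def Close (T : TiltPair p C F) (ε : ℝ) (P Q : MvPolynomial ι K) : Prop :=
  ∀ v : ι → C, (∀ i, T.absK (v i) ≤ 1) → T.absK (aeval v P - aeval v Q) ≤ ε

/-- a bound on the unit ball -/
theorem exists_bound (T : TiltPair p C F) (P : MvPolynomial ι K) :
    ∃ c : ℝ, 0 < c ∧ ∀ v : ι → C, (∀ i, T.absK (v i) ≤ 1) → T.absK (aeval v P) ≤ c := by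
  induction P using MvPolynomial.induction_on with
  | C a =>
    refine ⟨T.absK (algebraMap K C a) + 1, by positivity, fun v _ => ?_⟩
    rw [aeval_C]
    linarith
  | add P Q hP hQ =>
    obtain ⟨c, hc, h1⟩ := hP
    obtain ⟨c', hc', h2⟩ := hQ
    refine ⟨max c c', lt_max_of_lt_left hc, fun v hv => ?_⟩
    rw [map_add]
    exact (T.ultraK _ _).trans (max_le_max (h1 v hv) (h2 v hv))
  | mul_X P i hP =>
    obtain ⟨c, hc, h1⟩ := hP
    refine ⟨c, hc, fun v hv => ?_⟩
    rw [map_mul, map_mul, aeval_X]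
    calc T.absK (aeval v P) * T.absK (v i) ≤ c * 1 :=
          mul_le_mul (h1 v hv) (hv i) (T.absK.nonneg _) hc.le
      _ = c := mul_one c

/-- the norm of a scaled point -/
theorem exists_scale (T : TiltPair p C F) {v : ι → C} (hv : v ≠ 0) :
    ∃ a : C, a ≠ 0 ∧ (∀ i, T.absK ((a • v) i) ≤ 1) ∧ ∃ i, T.absK ((a • v) i) = 1 := by
  have hne : Nonempty ι := by
    by_contra h
    rw [not_nonempty_iff] at h
    exact hv (funext fun t => h.elim t)
  obtain ⟨t, ht⟩ := Finite.exists_max fun t => T.absK (v t)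
  have hvt : v t ≠ 0 := by
    intro h
    refine hv (funext fun i => ?_)
    have h1 := ht i
    rw [h, map_zero] at h1
    exact T.absK.eq_zero.1 (le_antisymm h1 (T.absK.nonneg _))
  have hpos : 0 < T.absK (v t) := T.absK.pos hvt
  refine ⟨(v t)⁻¹, inv_ne_zero hvt, fun i => ?_, t, ?_⟩
  · rw [Pi.smul_apply, smul_eq_mul, map_mul, map_inv₀, inv_mul_le_iff₀ hpos, mul_one]
    exact ht i
  · rw [Pi.smul_apply, smul_eq_mul, inv_mul_cancel₀ hvt, map_one]

variable [IsAlgClosed C] [IsAlgClosed F]

/-- **Semicontinuity of the dimension.** -/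
theorem dimLE_limit (T : TiltPair p C F) {X : Set (ι → C)} {d : ℕ} (hle : DimLEOver K X d)
    (P : κ → MvPolynomial ι K) (hPX : ∀ v : ι → C, (∀ k, aeval v (P k) = 0) → v ∈ X) :
    ∃ δ : ℝ, 0 < δ ∧ ∀ P' : κ → MvPolynomial ι K, (∀ k, IsForm (P' k)) →
      (∀ k, Close T δ (P k) (P' k)) → DimLEOver K {v : ι → C | ∀ k, aeval v (P' k) = 0} d := by
  classical
  obtain ⟨q, hq, hq0⟩ := hle
  choose δ₁ hδ₁ h1 using fun t : ι => smallK T (Sum.elim P q) (MvPolynomial.X t)
    (fun v hv => by
      rw [hq0 v (hPX v fun k => hv (Sum.inl k)) fun j => hv (Sum.inr j), aeval_X]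
      rfl) (show (0 : ℝ) < 1 / 2 by norm_num)
  obtain ⟨δ, hδ, hδ'⟩ := exists_pos_le δ₁ hδ₁
  refine ⟨δ, hδ, fun P' hP' hPP' => ⟨q, hq, fun v hv hqv => ?_⟩⟩
  by_contra hv0
  obtain ⟨a, ha, ha1, t, ht⟩ := exists_scale T hv0
  have h2 := h1 t (a • v) ha1 (by
    rintro (k | j)
    · obtain ⟨D, -, hD⟩ := hP' k
      have h3 : aeval (a • v) (P' k) = 0 := by rw [hom_smul hD, hv k, mul_zero]
      have h4 := hPP' k (a • v) ha1
      rw [h3, sub_zero] at h4
      exact h4.trans (hδ' t)
    · obtain ⟨D, -, hD⟩ := hq j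
      rw [Sum.elim_inr, hom_smul hD, hqv j, mul_zero, map_zero]
      exact hδ.le.trans (hδ' t))
  rw [aeval_X, ht] at h2
  norm_num at h2

/-- the lower bound of the dimension -/
theorem dimGE_of_app [Nonempty ι] (T : Tilting p C F) {X : Set (ι → C)} {d : ℕ}
    (hc : IsConeOver K X) (hne : X.Nonempty) (h : Approximable T.toTiltPair K E X d) :
    DimGE X d := by
  have : Infinite C := IsAlgClosed.instInfinite
  obtain ⟨r, g, hg, hX⟩ := exists_gens hc hne
  have h3 := dimGE_of_small T (small_of_approximable T.toTiltPair g hg hX h)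
  rw [← hX] at h3
  exact h3

/-- **Limits.** -/
theorem good_limit (T : Tilting p C F) (B : BaseField T K E) [Nonempty ι] {X : Set (ι → C)}
    {d : ℕ} (hc : IsConeOver K X) (hle : DimLEOver K X d) (P : κ → MvPolynomial ι K)
    (hP : ∀ k, IsForm (P k)) (hPX : ∀ v : ι → C, (∀ k, aeval v (P k) = 0) → v ∈ X)
    (h : ∀ ε : ℝ, 0 < ε → ∃ (X' : Set (ι → C)) (P' : κ → MvPolynomial ι K),
      Good T.toTiltPair K E X' d ∧ (∀ k, IsForm (P' k)) ∧
      (∀ k, ∀ x ∈ X', aeval x (P' k) = 0) ∧ ∀ k, Close T.toTiltPair ε (P k) (P' k)) :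
    Good T.toTiltPair K E X d := by
  classical
  set X0 : Set (ι → C) := {v | ∀ k, aeval v (P k) = 0} with hX0
  have hz : IsZero C P X0 := fun v => Iff.rfl
  have hc0 : IsConeOver K X0 := hz.cone hP
  have h00 : (0 : ι → C) ∈ X0 := fun k => aeval_zero_form (hP k)
  have hle0 : DimLEOver K X0 d := by
    obtain ⟨q, hq, hq0⟩ := hle
    exact ⟨q, hq, fun y hy => hq0 y (hPX y hy)⟩
  have happ : Approximable T.toTiltPair K E X0 d := by
    refine approx_of_system T B hz h00 hle0 fun δ hδ => ?_
    obtain ⟨X', P', hX', hP', hv, hcl⟩ := h δ hδ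
    obtain ⟨W, a1, a2, a3, a4⟩ := system_of_approx T.toTiltPair hP'
      (fun x hx k => hv k x hx) hX'.app hδ
    refine ⟨W, a1, a2, fun w hw hw1 k => ?_⟩
    have h1 := a4 w hw hw1 k
    have h2 := hcl k (fun i => T.sharp (w i)) fun i => by rw [T.abs_sharp]; exact hw1 i
    have h3 : aeval (fun i => T.sharp (w i)) (P k) =
        (aeval (fun i => T.sharp (w i)) (P k) - aeval (fun i => T.sharp (w i)) (P' k)) +
          aeval (fun i => T.sharp (w i)) (P' k) := by ring
    rw [h3]
    exact (T.ultraK _ _).trans (max_le h2 h1)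
  have hg0 : Good T.toTiltPair K E X0 d := ⟨hc0, dimGE_of_app T hc0 ⟨0, h00⟩ happ, hle0, happ⟩
  refine ⟨hc, fun q hq => ?_, hle, fun r Q D hQ hQX => happ r Q D hQ fun k x hx =>
    hQX k x (hPX x hx)⟩
  obtain ⟨y, hy, h1⟩ := hg0.ge q hq
  exact ⟨y, hPX y hy, h1⟩

/-- The member for the parameters `s` of a family of polynomials in the variables `ι`; the family is a
polynomial in the parameters, with coefficients which are polynomials in the variables `ι`. -/
noncomputable def member {σ : Type} (P : MvPolynomial σ (MvPolynomial ι K)) (s : σ → K) :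
    MvPolynomial ι K :=
  MvPolynomial.eval (fun j => MvPolynomial.C (s j)) P

/-- All members of the family are homogeneous of the same positive degree. -/
def FamForm {σ : Type} (P : MvPolynomial σ (MvPolynomial ι K)) : Prop :=
  ∃ D, 0 < D ∧ ∀ m, (P.coeff m).IsHomogeneous D

theorem FamForm.form {σ : Type} [Fintype σ] {P : MvPolynomial σ (MvPolynomial ι K)}
    (h : FamForm P) (s : σ → K) : IsForm (member P s) := by
  obtain ⟨D, hD, h⟩ := h
  refine ⟨D, hD, ?_⟩
  rw [member, MvPolynomial.eval_eq']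
  refine IsHomogeneous.sum _ _ _ fun m _ => ?_
  have h1 := (h m).mul (isHomogeneous_C ι (∏ i, s i ^ m i))
  rw [add_zero, map_prod] at h1
  simpa only [map_pow] using h1

/-- a family is continuous -/
theorem close_member {σ : Type} (T : TiltPair p C F) (P : MvPolynomial σ (MvPolynomial ι K))
    (s₀ : σ → K) : ∀ ε : ℝ, 0 < ε → ∃ η : ℝ, 0 < η ∧ ∀ s : σ → K,
      (∀ j, T.absK (algebraMap K C (s j - s₀ j)) ≤ η) →
        Close T ε (member P s₀) (member P s) := by
  induction P using MvPolynomial.induction_on with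
  | C a =>
    refine fun ε hε => ⟨1, one_pos, fun s _ v _ => ?_⟩
    simp only [member, eval_C, sub_self, map_zero]
    exact hε.le
  | add P Q hP hQ =>
    intro ε hε
    obtain ⟨η, hη, h1⟩ := hP ε hε
    obtain ⟨η', hη', h2⟩ := hQ ε hε
    refine ⟨min η η', lt_min hη hη', fun s hs v hv => ?_⟩
    have h3 := h1 s (fun j => (hs j).trans (min_le_left _ _)) v hv
    have h4 := h2 s (fun j => (hs j).trans (min_le_right _ _)) v hv
    have h5 : aeval v (member (P + Q) s₀) - aeval v (member (P + Q) s) =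
        (aeval v (member P s₀) - aeval v (member P s)) +
          (aeval v (member Q s₀) - aeval v (member Q s)) := by
      simp only [member, map_add]
      ring
    rw [h5]
    exact (T.ultraK _ _).trans (max_le h3 h4)
  | mul_X P j hP =>
    intro ε hε
    obtain ⟨b, hb, h1⟩ := exists_bound T (member P s₀)
    have hA : 0 < T.absK (algebraMap K C (s₀ j)) + 1 := by positivity
    obtain ⟨η, hη, h2⟩ := hP (min 1 (ε / (T.absK (algebraMap K C (s₀ j)) + 1)))
      (lt_min one_pos (div_pos hε hA))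
    have hb1 : 0 < max b 1 := lt_max_of_lt_left hb
    refine ⟨min η (ε / max b 1), lt_min hη (div_pos hε hb1), fun s hs v hv => ?_⟩
    have h3 := h2 s (fun j => (hs j).trans (min_le_left _ _)) v hv
    have h4 : T.absK (aeval v (member P s)) ≤ max b 1 := by
      have h5 : aeval v (member P s) = aeval v (member P s₀) +
          -(aeval v (member P s₀) - aeval v (member P s)) := by ring
      rw [h5]
      refine (T.ultraK _ _).trans (max_le_max (h1 v hv) ?_)
      rw [AbsoluteValue.map_neg]
      exact h3.trans (min_le_left _ _)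
    have h6 : aeval v (member (P * MvPolynomial.X j) s₀) -
        aeval v (member (P * MvPolynomial.X j) s) =
        (aeval v (member P s₀) - aeval v (member P s)) * algebraMap K C (s₀ j) +
          -(aeval v (member P s) * algebraMap K C (s j - s₀ j)) := by
      simp only [member, map_mul, eval_X, aeval_C, map_sub]
      ring
    rw [h6]
    refine (T.ultraK _ _).trans (max_le ?_ ?_)
    · rw [map_mul]
      calc _ ≤ (ε / (T.absK (algebraMap K C (s₀ j)) + 1)) *
            (T.absK (algebraMap K C (s₀ j)) + 1) :=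
            mul_le_mul (h3.trans (min_le_right _ _)) (by linarith) (T.absK.nonneg _)
              (div_pos hε hA).le
        _ = ε := div_mul_cancel₀ _ hA.ne'
    · rw [AbsoluteValue.map_neg, map_mul]
      calc _ ≤ max b 1 * (ε / max b 1) :=
            mul_le_mul h4 ((hs j).trans (min_le_right _ _)) (T.absK.nonneg _) hb1.le
        _ = ε := mul_div_cancel₀ _ hb1.ne'

/-- **Degenerations.** If for parameters `s` arbitrarily close to `s₀` Q1 holds for a closed set of
dimension `d` on which the `P_k (s, x)` vanish, then it holds for every closed set `X` of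
dimension `d` which contains the common zeros of the `P_k (s₀, x)`. -/
theorem good_family {σ : Type} [Fintype σ] (T : Tilting p C F) (B : BaseField T K E) [Nonempty ι]
    {X : Set (ι → C)} {d : ℕ} (hc : IsConeOver K X) (hle : DimLEOver K X d)
    (P : κ → MvPolynomial σ (MvPolynomial ι K)) (hP : ∀ k, FamForm (P k)) (s₀ : σ → K)
    (hPX : ∀ v : ι → C, (∀ k, aeval v (member (P k) s₀) = 0) → v ∈ X)
    (h : ∀ ε : ℝ, 0 < ε → ∃ s : σ → K, (∀ j, T.absK (algebraMap K C (s j - s₀ j)) ≤ ε) ∧
      ∃ X' : Set (ι → C), Good T.toTiltPair K E X' d ∧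
        ∀ k, ∀ x ∈ X', aeval x (member (P k) s) = 0) :
    Good T.toTiltPair K E X d := by
  classical
  refine good_limit T B hc hle (fun k => member (P k) s₀) (fun k => (hP k).form s₀) hPX
    fun ε hε => ?_
  choose c hc0 hcl using fun k => close_member T.toTiltPair (P k) s₀ ε hε
  obtain ⟨η, hη, hη'⟩ := exists_pos_le c hc0
  obtain ⟨s, hs, X', hX', hv⟩ := h η hη
  exact ⟨X', fun k => member (P k) s, hX', fun k => (hP k).form s, hv, fun k =>
    hcl k s fun j => (hs j).trans (hη' k)⟩

/-- there are arbitrarily small elements -/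
theorem exists_small_elt (T : TiltPair p C F) {ε : ℝ} (hε : 0 < ε) :
    ∃ t : K, t ≠ 0 ∧ T.absK (algebraMap K C t) ≤ ε := by
  obtain ⟨m, hm⟩ := exists_pow_lt_of_lt_one hε T.p_lt
  have hp0 : (p : K) ≠ 0 := fun h => T.p_ne (by rw [← map_natCast (algebraMap K C), h, map_zero])
  refine ⟨(p : K) ^ m, pow_ne_zero _ hp0, ?_⟩
  rw [map_pow, map_natCast, map_pow]
  exact hm.le

/-- **General members.** If Q1 holds for a closed set of dimension `d` on which the `P_k (s, x)` vanish,
for all parameters `s` with `h (s) ≠ 0`, where `h` is a nonzero polynomial, then for all parameters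
`s₀` it holds for every closed set `X` of dimension `d` which contains the common zeros of the
`P_k (s₀, x)`. -/
theorem good_general {σ : Type} [Fintype σ] (T : Tilting p C F) (B : BaseField T K E) [Nonempty ι]
    {X : Set (ι → C)} {d : ℕ} (hc : IsConeOver K X) (hle : DimLEOver K X d)
    (P : κ → MvPolynomial σ (MvPolynomial ι K)) (hP : ∀ k, FamForm (P k)) (s₀ : σ → K)
    (hPX : ∀ v : ι → C, (∀ k, aeval v (member (P k) s₀) = 0) → v ∈ X)
    (h : MvPolynomial σ K) (h0 : h ≠ 0)
    (hh : ∀ s : σ → K, MvPolynomial.eval s h ≠ 0 → ∃ X' : Set (ι → C),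
      Good T.toTiltPair K E X' d ∧ ∀ k, ∀ x ∈ X', aeval x (member (P k) s) = 0) :
    Good T.toTiltPair K E X d := by
  classical
  have hp0 : (p : K) ≠ 0 := fun h => T.p_ne (by rw [← map_natCast (algebraMap K C), h, map_zero])
  have hinf : Infinite K := by
    by_contra hfin
    rw [not_infinite_iff_finite] at hfin
    let u : Kˣ := Units.mk0 (p : K) hp0
    obtain ⟨m, hm, hu⟩ := isOfFinOrder_iff_pow_eq_one.1 (isOfFinOrder_of_finite u)
    have h1 : (p : K) ^ m = 1 := by
      have h4 := congrArg Units.val hu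
      rw [Units.val_pow_eq_pow_val] at h4
      exact h4
    have h2 : (p : C) ^ m = 1 := by rw [← map_natCast (algebraMap K C), ← map_pow, h1, map_one]
    have h3 : T.absK (p : C) ^ m = 1 := by rw [← map_pow, h2, map_one]
    exact (pow_lt_one₀ (T.absK.nonneg _) T.p_lt hm.ne').ne h3
  -- a point where `h` does not vanish
  obtain ⟨s₁, hs₁⟩ : ∃ s₁ : σ → K, MvPolynomial.eval s₁ h ≠ 0 := by
    by_contra hno
    push Not at hno
    exact h0 (MvPolynomial.funext fun x => by rw [hno x, map_zero])
  -- the restriction to a line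
  let ℓ : Polynomial K := MvPolynomial.aeval
    (fun j => Polynomial.C (s₀ j) + Polynomial.X * Polynomial.C (s₁ j - s₀ j)) h
  have hℓ : ∀ t : K, ℓ.eval t = MvPolynomial.eval (fun j => s₀ j + t * (s₁ j - s₀ j)) h := by
    intro t
    have h1 : (Polynomial.evalRingHom t).comp (MvPolynomial.aeval
        (fun j => Polynomial.C (s₀ j) + Polynomial.X * Polynomial.C (s₁ j - s₀ j)) :
          MvPolynomial σ K →ₐ[K] Polynomial K).toRingHom =
        MvPolynomial.eval (fun j => s₀ j + t * (s₁ j - s₀ j)) := by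
      apply MvPolynomial.ringHom_ext
      · intro a
        simp
      · intro j
        simp
    exact congrArg (fun f : MvPolynomial σ K →+* K => f h) h1
  have hℓ0 : ℓ ≠ 0 := by
    intro hz
    have h1 := hℓ 1
    rw [hz, Polynomial.eval_zero] at h1
    apply hs₁
    rw [h1]
    congr 2
    funext j
    ring
  refine good_family T B hc hle P hP s₀ hPX fun ε hε => ?_
  -- a small parameter which is not a root
  obtain ⟨b, hb⟩ : ∃ b : ℝ, ∀ j, T.absK (algebraMap K C (s₁ j - s₀ j)) ≤ b := by
    obtain ⟨b, hb⟩ := (Set.finite_range fun j => T.absK (algebraMap K C (s₁ j - s₀ j))).bddAbove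
    exact ⟨b, fun j => hb ⟨j, rfl⟩⟩
  have hb1 : 0 < max b 1 := lt_max_of_lt_right one_pos
  have hex : ∃ m : ℕ, T.absK (p : C) ^ m ≤ ε / max b 1 ∧ ℓ.eval ((p : K) ^ m) ≠ 0 := by
    obtain ⟨m₀, hm₀⟩ := exists_pow_lt_of_lt_one (div_pos hε hb1) T.p_lt
    by_contra hno
    push Not at hno
    refine hℓ0 (Polynomial.eq_zero_of_infinite_isRoot ℓ ?_)
    have hinj : Function.Injective fun i : ℕ => (p : K) ^ (m₀ + i) := by
      intro i j hij
      by_contra hne
      have h1 : T.absK (p : C) ^ (m₀ + i) = T.absK (p : C) ^ (m₀ + j) := by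
        have h2 := congrArg (fun x => T.absK (algebraMap K C x)) hij
        simpa only [map_pow, map_natCast] using h2
      have h3 : StrictAnti fun n : ℕ => T.absK (p : C) ^ n :=
        pow_right_strictAnti₀ (T.absK.pos T.p_ne) T.p_lt
      have h4 := h3.injective h1
      omega
    refine (Set.infinite_range_of_injective hinj).mono ?_
    rintro _ ⟨i, rfl⟩
    refine hno (m₀ + i) ?_
    refine le_trans ?_ hm₀.le
    exact pow_le_pow_of_le_one (T.absK.nonneg _) T.p_lt.le (Nat.le_add_right _ _)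
  obtain ⟨m, hm, hmr⟩ := hex
  rw [hℓ] at hmr
  refine ⟨fun j => s₀ j + (p : K) ^ m * (s₁ j - s₀ j), fun j => ?_, hh _ hmr⟩
  rw [add_sub_cancel_left, map_mul, map_mul, map_pow, map_natCast, map_pow]
  calc T.absK (p : C) ^ m * T.absK (algebraMap K C (s₁ j - s₀ j))
      ≤ (ε / max b 1) * max b 1 :=
        mul_le_mul hm ((hb j).trans (le_max_left _ _)) (T.absK.nonneg _) (div_pos hε hb1).le
    _ = ε := div_mul_cancel₀ _ hb1.ne'

/-- **Zero loci of sections of excess bundles.** -/
theorem good_excess (T : Tilting p C F) (B : BaseField T K E) [Nonempty ι] {V X : Set (ι → C)}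
    {δ d c s : ℕ} (hV : Good T.toTiltPair K E V δ) (q a : Fin c → MvPolynomial ι K)
    (D : Fin c → ℕ) (hD : ∀ i, 0 < D i) (hq : ∀ i, (q i).IsHomogeneous (D i))
    (ha : ∀ i, (a i).IsHomogeneous (D i)) (S : Fin s → Fin c → MvPolynomial ι K)
    (hS : ∀ j, IsForm (∑ i, S j i * a i))
    (hSq : ∀ j, ∀ x ∈ V, aeval x (∑ i, S j i * q i) = 0) (hd : c + d ≤ δ)
    (hc : IsConeOver K X) (hle : DimLEOver K X d)
    (hX : ∀ x ∈ V, (∀ i, aeval x (q i) = 0) → (∀ j, aeval x (∑ i, S j i * a i) = 0) → x ∈ X) :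
    Good T.toTiltPair K E X d := by
  classical
  obtain ⟨r, G, hG, hGV⟩ := exists_forms hV.cone ⟨0, hV.zero_mem⟩
  let P : Fin r ⊕ (Fin c ⊕ Fin s) → MvPolynomial ι K :=
    Sum.elim G (Sum.elim q fun j => ∑ i, S j i * a i)
  let P' : K → Fin r ⊕ (Fin c ⊕ Fin s) → MvPolynomial ι K := fun t =>
    Sum.elim G (Sum.elim (fun i => q i + MvPolynomial.C t * a i) fun j => ∑ i, S j i * a i)
  have hqa : ∀ t i, (q i + MvPolynomial.C t * a i).IsHomogeneous (D i) := fun t i => by
    refine (hq i).add ?_
    have := (isHomogeneous_C ι t).mul (ha i)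
    rwa [zero_add] at this
  have hP : ∀ k, IsForm (P k) := by
    rintro (l | i | j)
    · exact hG l
    · exact ⟨D i, hD i, hq i⟩
    · exact hS j
  have hP' : ∀ t k, IsForm (P' t k) := by
    rintro t (l | i | j)
    · exact hG l
    · exact ⟨D i, hD i, hqa t i⟩
    · exact hS j
  choose b hb0 hb using fun i => exists_bound T.toTiltPair (a i)
  have hclose : ∀ ε : ℝ, 0 < ε → ∃ η : ℝ, 0 < η ∧ ∀ t : K, T.absK (algebraMap K C t) ≤ η →
      ∀ k, Close T.toTiltPair ε (P k) (P' t k) := by
    intro ε hε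
    obtain ⟨η, hη, hη'⟩ := exists_pos_le (fun i => ε / b i) fun i => div_pos hε (hb0 i)
    refine ⟨η, hη, fun t ht => ?_⟩
    rintro (l | i | j) v hv
    · simp only [P, P', Sum.elim_inl, sub_self, map_zero]
      exact hε.le
    · have h1 : aeval v (P (Sum.inr (Sum.inl i))) - aeval v (P' t (Sum.inr (Sum.inl i))) =
          -(algebraMap K C t * aeval v (a i)) := by
        simp only [P, P', Sum.elim_inr, Sum.elim_inl, map_add, map_mul, aeval_C]
        ring
      rw [h1, AbsoluteValue.map_neg, map_mul]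
      calc T.absK (algebraMap K C t) * T.absK (aeval v (a i)) ≤ (ε / b i) * b i :=
            mul_le_mul (ht.trans (hη' i)) (hb i v hv) (T.absK.nonneg _) (div_pos hε (hb0 i)).le
        _ = ε := by field_simp [(hb0 i).ne']
    · simp only [P, P', Sum.elim_inr, sub_self, map_zero]
      exact hε.le
  have hPX : ∀ v : ι → C, (∀ k, aeval v (P k) = 0) → v ∈ X := fun v hv =>
    hX v ((hGV v).2 fun l => hv (Sum.inl l)) (fun i => hv (Sum.inr (Sum.inl i)))
      fun j => hv (Sum.inr (Sum.inr j))
  obtain ⟨δ₀, hδ₀, hδ₁⟩ := dimLE_limit T.toTiltPair hle P hPX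
  refine good_limit T B hc hle P hP hPX fun ε hε => ?_
  obtain ⟨η, hη, hη'⟩ := hclose (min ε δ₀) (lt_min hε hδ₀)
  obtain ⟨t, ht0, ht⟩ := exists_small_elt (K := K) T.toTiltPair hη
  have hcl := hη' t ht
  have hle' := hδ₁ (P' t) (hP' t) fun k v hv => (hcl k v hv).trans (min_le_right _ _)
  -- the syzygies hold on the deformed set
  have hvan : ∀ x ∈ {x | x ∈ V ∧ ∀ i, aeval x (q i + MvPolynomial.C t * a i) = 0},
      ∀ k, aeval x (P' t k) = 0 := by
    rintro x ⟨hx, hxq⟩ (l | i | j)
    · exact (hGV x).1 hx l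
    · exact hxq i
    · change aeval x (∑ i, S j i * a i) = 0
      have h1 := hSq j x hx
      have ht1 : algebraMap K C t ≠ 0 := (map_ne_zero _).2 ht0
      have h2 : algebraMap K C t * aeval x (∑ i, S j i * a i) = 0 := by
        have h3 : algebraMap K C t * aeval x (∑ i, S j i * a i) =
            (∑ i, aeval x (S j i) * aeval x (q i + MvPolynomial.C t * a i)) -
              aeval x (∑ i, S j i * q i) := by
          simp only [map_sum, map_mul, map_add, aeval_C, Finset.mul_sum]
          rw [← Finset.sum_sub_distrib]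
          refine Finset.sum_congr rfl fun i _ => ?_
          ring
        rw [h3, h1, sub_zero]
        exact Finset.sum_eq_zero fun i _ => by rw [hxq i, mul_zero]
      exact (mul_eq_zero.1 h2).resolve_left ht1
  refine ⟨{x | x ∈ V ∧ ∀ i, aeval x (q i + MvPolynomial.C t * a i) = 0}, P' t, ?_, hP' t,
    fun k x hx => hvan x hx k, fun k v hv => (hcl k v hv).trans (min_le_left _ _)⟩
  refine Good.section T B hV _ (fun i => ⟨D i, hD i, hqa t i⟩)
    (by rw [Fintype.card_fin]; exact hd) ?_
  obtain ⟨u, hu, hu0⟩ := hle'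
  exact ⟨u, hu, fun y hy => hu0 y (hvan y hy)⟩

end Pool.Agent.U247.TP
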