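import Pool.Agent.U247.TP.Deg

/-!
# Zero loci of sections of the pull-backs of normal bundles
-/

set_option autoImplicit false
set_option linter.unusedSectionVars false
set_option linter.unusedVariables false

namespace Pool.Agent.U247.TP

open MvPolynomial Pool.Agent.Y129.TA
open Pool.Agent.Y129.TB (IsConeOver InTube Approximable DimLEOver form_map eval_map_alg BaseField)
open Pool.Agent.X271.TQ Pool.Agent.N734.QP

variable {p : ℕ} [hp : Fact p.Prime] {C F K E : Type} [Field C] [Field F] [CharP F p] [Field K]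
  [Field E] [Algebra K C] [Algebra E F] {ι τ : Type} [Fintype ι] [Fintype τ]

/-- a bound on a ball -/
theorem exists_bound' (T : TiltPair p C F) (P : MvPolynomial ι K) {R : ℝ} (hR : 0 < R) :
    ∃ c : ℝ, 0 < c ∧ ∀ v : ι → C, (∀ i, T.absK (v i) ≤ R) → T.absK (aeval v P) ≤ c := by
  induction P using MvPolynomial.induction_on with
  | C a =>
    refine ⟨T.absK (algebraMap K C a) + 1, by positivity, fun v _ => ?_⟩
    rw [aeval_C]
    linarith
  | add P Q hP hQ =>
    obtain ⟨c, hc, h1⟩ := hP
    obtain ⟨c', hc', h2⟩ := hQ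
    refine ⟨max c c', lt_max_of_lt_left hc, fun v hv => ?_⟩
    rw [map_add]
    exact (T.ultraK _ _).trans (max_le_max (h1 v hv) (h2 v hv))
  | mul_X P i hP =>
    obtain ⟨c, hc, h1⟩ := hP
    refine ⟨c * R, mul_pos hc hR, fun v hv => ?_⟩
    rw [map_mul, map_mul, aeval_X]
    exact mul_le_mul (h1 v hv) (hv i) (T.absK.nonneg _) hc.le

/-- The differential of `H` at `u` applied to `y`. -/
noncomputable def dif (H : MvPolynomial τ K) (u y : τ → C) : C :=
  ∑ i, y i * aeval u (pderiv i H)

theorem dif_add (H H' : MvPolynomial τ K) (u y : τ → C) :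
    dif (H + H') u y = dif H u y + dif H' u y := by
  simp only [dif, map_add, mul_add, Finset.sum_add_distrib]

theorem dif_mul_X (H : MvPolynomial τ K) (j : τ) (u y : τ → C) :
    dif (H * MvPolynomial.X j) u y = dif H u y * u j + aeval u H * y j := by
  classical
  simp only [dif, Derivation.leibniz, map_add, smul_eq_mul, map_mul, aeval_X, mul_add,
    Finset.sum_add_distrib, Finset.sum_mul]
  have h1 : ∑ i, y i * (aeval u H * aeval u (pderiv i (MvPolynomial.X j : MvPolynomial τ K))) =
      aeval u H * y j := by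
    rw [Finset.sum_eq_single j]
    · rw [pderiv_X_self, map_one]
      ring
    · intro i _ hi
      rw [pderiv_X_of_ne (Ne.symm hi), map_zero]
      ring
    · intro h
      exact absurd (Finset.mem_univ j) h
  rw [h1, add_comm]
  congr 1
  refine Finset.sum_congr rfl fun i _ => ?_
  ring

/-- Taylor's formula -/
theorem exists_taylor (T : TiltPair p C F) (H : MvPolynomial τ K) {R : ℝ} (hR : 0 < R) :
    ∃ c : ℝ, 0 < c ∧ ∀ (t : C) (u y : τ → C), T.absK t ≤ 1 → (∀ i, T.absK (u i) ≤ R) →
      (∀ i, T.absK (y i) ≤ R) →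
      T.absK (aeval (u + t • y) H - aeval u H - t * dif H u y) ≤ c * T.absK t ^ 2 := by
  induction H using MvPolynomial.induction_on with
  | C a =>
    refine ⟨1, one_pos, fun t u y _ _ _ => ?_⟩
    have h1 : dif (MvPolynomial.C a : MvPolynomial τ K) u y = 0 := by
      simp [dif]
    rw [h1, aeval_C, aeval_C, sub_self, mul_zero, sub_zero, map_zero, one_mul]
    positivity
  | add P Q hP hQ =>
    obtain ⟨c, hc, h1⟩ := hP
    obtain ⟨c', hc', h2⟩ := hQ
    refine ⟨max c c', lt_max_of_lt_left hc, fun t u y ht hu hy => ?_⟩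
    have h5 : aeval (u + t • y) (P + Q) - aeval u (P + Q) - t * dif (P + Q) u y =
        (aeval (u + t • y) P - aeval u P - t * dif P u y) +
        (aeval (u + t • y) Q - aeval u Q - t * dif Q u y) := by
      rw [map_add, map_add, dif_add]
      ring
    rw [h5]
    refine (T.ultraK _ _).trans (max_le ?_ ?_)
    · exact (h1 t u y ht hu hy).trans
        (mul_le_mul_of_nonneg_right (le_max_left _ _) (by positivity))
    · exact (h2 t u y ht hu hy).trans
        (mul_le_mul_of_nonneg_right (le_max_right _ _) (by positivity))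
  | mul_X P j hP =>
    obtain ⟨c, hc, h1⟩ := hP
    choose b hb0 hb using fun i : τ => exists_bound' (p := p) T (pderiv i P) hR
    -- a bound of the differential
    have hdif : ∀ (u y : τ → C), (∀ i, T.absK (u i) ≤ R) → (∀ i, T.absK (y i) ≤ R) →
        T.absK (dif P u y) ≤ ∑ i, R * b i := by
      intro u y hu hy
      refine (T.absK.sum_le _ _).trans (Finset.sum_le_sum fun i _ => ?_)
      rw [map_mul]
      exact mul_le_mul (hy i) (hb i u hu) (T.absK.nonneg _) hR.le
    have hB : (0 : ℝ) ≤ ∑ i, R * b i :=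
      Finset.sum_nonneg fun i _ => mul_nonneg hR.le (hb0 i).le
    refine ⟨max (c * R) ((∑ i, R * b i) * R), lt_max_of_lt_left (mul_pos hc hR),
      fun t u y ht hu hy => ?_⟩
    have h5 : aeval (u + t • y) (P * MvPolynomial.X j) - aeval u (P * MvPolynomial.X j) -
        t * dif (P * MvPolynomial.X j) u y =
        (aeval (u + t • y) P - aeval u P - t * dif P u y) * (u j + t * y j) +
          t ^ 2 * (dif P u y * y j) := by
      rw [map_mul, map_mul, aeval_X, aeval_X, dif_mul_X, Pi.add_apply, Pi.smul_apply, smul_eq_mul]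
      ring
    rw [h5]
    refine (T.ultraK _ _).trans (max_le ?_ ?_)
    · rw [map_mul]
      have h6 : T.absK (u j + t * y j) ≤ R := by
        refine (T.ultraK _ _).trans (max_le (hu j) ?_)
        rw [map_mul]
        calc T.absK t * T.absK (y j) ≤ 1 * R :=
              mul_le_mul ht (hy j) (T.absK.nonneg _) zero_le_one
          _ = R := one_mul R
      calc T.absK (aeval (u + t • y) P - aeval u P - t * dif P u y) * T.absK (u j + t * y j)
          ≤ (c * T.absK t ^ 2) * R :=
            mul_le_mul (h1 t u y ht hu hy) h6 (T.absK.nonneg _) (by positivity)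
        _ = (c * R) * T.absK t ^ 2 := by ring
        _ ≤ _ := mul_le_mul_of_nonneg_right (le_max_left _ _) (by positivity)
    · rw [map_mul, map_mul, map_pow]
      calc T.absK t ^ 2 * (T.absK (dif P u y) * T.absK (y j))
          ≤ T.absK t ^ 2 * ((∑ i, R * b i) * R) :=
            mul_le_mul_of_nonneg_left (mul_le_mul (hdif u y hu hy) (hy j) (T.absK.nonneg _) hB)
              (by positivity)
        _ = ((∑ i, R * b i) * R) * T.absK t ^ 2 := by ring
        _ ≤ _ := mul_le_mul_of_nonneg_right (le_max_right _ _) (by positivity)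

variable [IsAlgClosed C] [IsAlgClosed F]

/-- **Zero loci of sections of the pull-backs of normal bundles.** `f` maps `V₁` to `V₂`, and `g` is a
first order deformation of `f`. -/
theorem good_normal (T : Tilting p C F) (B : BaseField T K E) {n m δ₁ δ₂ d e r : ℕ}
    {V₁ X : Set (Fin (n + 1) → C)} {V₂ : Set (Fin (m + 1) → C)}
    (h₁ : Good T.toTiltPair K E V₁ δ₁) (h₂ : Good T.toTiltPair K E V₂ δ₂)
    (H : Fin r → MvPolynomial (Fin (m + 1)) K) (hH : ∀ l, IsForm (H l))
    (hHV : ∀ y : Fin (m + 1) → C, y ∈ V₂ ↔ ∀ l, aeval y (H l) = 0)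
    (f g : Fin (m + 1) → MvPolynomial (Fin (n + 1)) K) (he : 0 < e)
    (hf : ∀ i, (f i).IsHomogeneous e) (hg : ∀ i, (g i).IsHomogeneous e)
    (hfV : ∀ x ∈ V₁, (fun i => aeval x (f i)) ∈ V₂) (hd : d + m ≤ δ₁ + δ₂)
    (hc : IsConeOver K X) (hle : DimLEOver K X d)
    (hX : ∀ x ∈ V₁, (∀ l, aeval x (∑ i, g i * aeval f (pderiv i (H l))) = 0) → x ∈ X) :
    Good T.toTiltPair K E X d := by
  classical
  obtain ⟨s, G, hG, hGV⟩ := exists_forms h₁.cone ⟨0, h₁.zero_mem⟩
  choose D hD0 hD using hH
  let P : Fin s ⊕ Fin r → MvPolynomial (Fin (n + 1)) K :=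
    Sum.elim G fun l => ∑ i, g i * aeval f (pderiv i (H l))
  let P' : K → Fin s ⊕ Fin r → MvPolynomial (Fin (n + 1)) K := fun t =>
    Sum.elim G fun l => MvPolynomial.C t⁻¹ *
      (aeval (fun i => f i + MvPolynomial.C t * g i) (H l) - aeval f (H l))
  have hft : ∀ t i, (f i + MvPolynomial.C t * g i).IsHomogeneous e := fun t i => by
    refine (hf i).add ?_
    have := (isHomogeneous_C (Fin (n + 1)) t).mul (hg i)
    rwa [zero_add] at this
  have hP : ∀ k, IsForm (P k) := by
    rintro (k | l)
    · exact hG k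
    · refine ⟨e * D l, Nat.mul_pos he (hD0 l), ?_⟩
      refine IsHomogeneous.sum _ _ _ fun i _ => ?_
      have h1 := (hg i).mul (((hD l).pderiv (i := i)).aeval f hf)
      have h2 : e + e * (D l - 1) = e * D l := by
        obtain ⟨m', hm'⟩ : ∃ m', D l = m' + 1 := ⟨D l - 1, by have := hD0 l; omega⟩
        rw [hm']
        simp only [Nat.add_sub_cancel]
        ring
      rw [h2] at h1
      exact h1
  have hP' : ∀ t k, IsForm (P' t k) := by
    rintro t (k | l)
    · exact hG k
    · refine ⟨e * D l, Nat.mul_pos he (hD0 l), ?_⟩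
      have h1 : (aeval (fun i => f i + MvPolynomial.C t * g i) (H l) - aeval f (H l) :
          MvPolynomial (Fin (n + 1)) K).IsHomogeneous (e * D l) :=
        ((hD l).aeval _ (hft t)).sub ((hD l).aeval _ hf)
      have := (isHomogeneous_C (Fin (n + 1)) t⁻¹).mul h1
      rwa [zero_add] at this
  -- bounds
  obtain ⟨R, hR0, hRf, hRg⟩ : ∃ R : ℝ, 0 < R ∧
      (∀ (v : Fin (n + 1) → C), (∀ i, T.absK (v i) ≤ 1) → ∀ i, T.absK (aeval v (f i)) ≤ R) ∧
      (∀ (v : Fin (n + 1) → C), (∀ i, T.absK (v i) ≤ 1) → ∀ i, T.absK (aeval v (g i)) ≤ R) := by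
    choose b hb0 hb using fun i => exists_bound T.toTiltPair (f i)
    choose b' hb0' hb' using fun i => exists_bound T.toTiltPair (g i)
    refine ⟨∑ i, (b i + b' i), Finset.sum_pos (fun i _ => add_pos (hb0 i) (hb0' i))
      Finset.univ_nonempty, fun v hv i => ?_, fun v hv i => ?_⟩
    · refine (hb i v hv).trans ?_
      have := Finset.single_le_sum (f := fun i => b i + b' i)
        (fun i _ => (add_pos (hb0 i) (hb0' i)).le) (Finset.mem_univ i)
      have h2 := (hb0' i).le
      linarith
    · refine (hb' i v hv).trans ?_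
      have := Finset.single_le_sum (f := fun i => b i + b' i)
        (fun i _ => (add_pos (hb0 i) (hb0' i)).le) (Finset.mem_univ i)
      have h2 := (hb0 i).le
      linarith
  choose c hc0 hcT using fun l => exists_taylor (p := p) T.toTiltPair (H l) hR0
  have hev : ∀ (v : Fin (n + 1) → C) (t : K) l,
      aeval v (aeval (fun i => f i + MvPolynomial.C t * g i) (H l)) =
        aeval ((fun i => aeval v (f i)) + algebraMap K C t • fun i => aeval v (g i)) (H l) := by
    intro v t l
    rw [← AlgHom.comp_apply, comp_aeval]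
    congr 2
    funext i
    simp only [map_add, map_mul, aeval_C, Pi.add_apply, Pi.smul_apply, smul_eq_mul]
  have hev0 : ∀ (v : Fin (n + 1) → C) (Q : MvPolynomial (Fin (m + 1)) K),
      aeval v (aeval f Q) = aeval (fun i => aeval v (f i)) Q := by
    intro v Q
    rw [← AlgHom.comp_apply, comp_aeval]
  have hclose : ∀ ε : ℝ, 0 < ε → ∃ η : ℝ, 0 < η ∧ ∀ t : K, t ≠ 0 →
      T.absK (algebraMap K C t) ≤ η → ∀ k, Close T.toTiltPair ε (P k) (P' t k) := by
    intro ε hε
    obtain ⟨η, hη, hη'⟩ := exists_pos_le (fun l => ε / c l) fun l => div_pos hε (hc0 l)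
    refine ⟨min 1 η, lt_min one_pos hη, fun t ht0 ht => ?_⟩
    rintro (k | l) v hv
    · simp only [P, P', Sum.elim_inl, sub_self, map_zero]
      exact hε.le
    · have ht1 : algebraMap K C t ≠ 0 := (map_ne_zero _).2 ht0
      have h1 := hcT l (algebraMap K C t) (fun i => aeval v (f i)) (fun i => aeval v (g i))
        (ht.trans (min_le_left _ _)) (hRf v hv) (hRg v hv)
      have h2 : aeval v (P (Sum.inr l)) - aeval v (P' t (Sum.inr l)) =
          -((algebraMap K C t)⁻¹ *
            (aeval ((fun i => aeval v (f i)) + algebraMap K C t • fun i => aeval v (g i)) (H l) -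
              aeval (fun i => aeval v (f i)) (H l) -
              algebraMap K C t * dif (H l) (fun i => aeval v (f i)) fun i => aeval v (g i))) := by
        have e1 : aeval v (P (Sum.inr l)) =
            dif (H l) (fun i => aeval v (f i)) fun i => aeval v (g i) := by
          simp only [P, Sum.elim_inr, map_sum, map_mul, dif, hev0]
        have e2 : aeval v (P' t (Sum.inr l)) = (algebraMap K C t)⁻¹ *
            (aeval ((fun i => aeval v (f i)) + algebraMap K C t • fun i => aeval v (g i)) (H l) -
              aeval (fun i => aeval v (f i)) (H l)) := by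
          simp only [P', Sum.elim_inr, map_mul, map_sub, aeval_C, map_inv₀, hev, hev0]
        rw [e1, e2]
        field_simp
        ring
      rw [h2, AbsoluteValue.map_neg, map_mul, map_inv₀]
      have hpos : 0 < T.absK (algebraMap K C t) := T.absK.pos ht1
      rw [inv_mul_le_iff₀ hpos]
      refine h1.trans ?_
      calc c l * T.absK (algebraMap K C t) ^ 2
          = T.absK (algebraMap K C t) * (c l * T.absK (algebraMap K C t)) := by ring
        _ ≤ T.absK (algebraMap K C t) * (c l * (ε / c l)) :=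
            mul_le_mul_of_nonneg_left (mul_le_mul_of_nonneg_left
              ((ht.trans (min_le_right _ _)).trans (hη' l)) (hc0 l).le) hpos.le
        _ = T.absK (algebraMap K C t) * ε := by
            congr 1
            field_simp [(hc0 l).ne']
  have hPX : ∀ v : Fin (n + 1) → C, (∀ k, aeval v (P k) = 0) → v ∈ X := fun v hv =>
    hX v ((hGV v).2 fun l => hv (Sum.inl l)) fun l => hv (Sum.inr l)
  obtain ⟨δ₀, hδ₀, hδ₁⟩ := dimLE_limit T.toTiltPair hle P hPX
  refine good_limit T B hc hle P hP hPX fun ε hε => ?_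
  obtain ⟨η, hη, hη'⟩ := hclose (min ε δ₀) (lt_min hε hδ₀)
  obtain ⟨t, ht0, ht⟩ := exists_small_elt (K := K) T.toTiltPair hη
  have hcl := hη' t ht0 ht
  have hle' := hδ₁ (P' t) (hP' t) fun k v hv => (hcl k v hv).trans (min_le_right _ _)
  -- the deformed set
  let nn : Fin 2 → ℕ := ![n, m]
  let dd : Fin 2 → ℕ := ![δ₁, δ₂]
  let ee : Fin 2 → ℕ := ![1, e]
  let XX : ∀ i : Fin 2, Set (Fin (nn i + 1) → C) := Fin.cons (α := fun i : Fin 2 =>
    Set (Fin (nn i + 1) → C)) V₁ (Fin.cons (α := fun i : Fin 1 => Set (Fin (nn i.succ + 1) → C)) V₂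
      fun i => i.elim0)
  let ff : ∀ i : Fin 2, Fin (nn i + 1) → MvPolynomial (Fin (n + 1)) K := Fin.cons
    (α := fun i : Fin 2 => Fin (nn i + 1) → MvPolynomial (Fin (n + 1)) K)
    (fun i => (MvPolynomial.X i : MvPolynomial (Fin (n + 1)) K))
    (Fin.cons (α := fun i : Fin 1 => Fin (nn i.succ + 1) → MvPolynomial (Fin (n + 1)) K)
      (fun i => f i + MvPolynomial.C t * g i) fun i => i.elim0)
  have hvan : ∀ x ∈ pullSet XX ff, ∀ k, aeval x (P' t k) = 0 := by
    intro x hx
    have hx1 : x ∈ V₁ := by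
      have h1 := hx 0
      change (fun j => aeval x (MvPolynomial.X j : MvPolynomial (Fin (n + 1)) K)) ∈ V₁ at h1
      simpa only [aeval_X] using h1
    have hx2 : (fun j => aeval x (f j + MvPolynomial.C t * g j)) ∈ V₂ := hx 1
    rintro (k | l)
    · exact (hGV x).1 hx1 k
    · have h1 := (hHV _).1 (hfV x hx1) l
      have h2 := (hHV _).1 hx2 l
      have h3 : aeval x (aeval (fun i => f i + MvPolynomial.C t * g i) (H l)) =
          aeval (fun j => aeval x (f j + MvPolynomial.C t * g j)) (H l) := by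
        rw [← AlgHom.comp_apply, comp_aeval]
      simp only [P', Sum.elim_inr, map_mul, map_sub, h3, h2, hev0, h1, sub_self, mul_zero]
  refine ⟨pullSet XX ff, P' t, ?_, hP' t, fun k x hx => hvan x hx k,
    fun k v hv => (hcl k v hv).trans (min_le_left _ _)⟩
  refine good_pull (n := nn) (δ := dd) (e := ee) T B (X := XX) ?_ ff ?_ ?_ ?_ ?_
  · intro i
    refine Fin.cases ?_ (fun i => ?_) i
    · exact h₁
    · refine Fin.cases ?_ (fun i => i.elim0) i
      exact h₂
  · intro i
    refine Fin.cases ?_ (fun i => ?_) i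
    · exact one_pos
    · refine Fin.cases ?_ (fun i => i.elim0) i
      exact he
  · intro i
    refine Fin.cases ?_ (fun i => ?_) i
    · exact fun j => isHomogeneous_X _ _
    · refine Fin.cases ?_ (fun i => i.elim0) i
      exact fun j => hft t j
  · have e1 : ∑ i, nn i = n + m := by simp [nn]
    have e2 : ∑ i, dd i = δ₁ + δ₂ := by simp [dd]
    rw [e1, e2]
    omega
  · obtain ⟨u, hu, hu0⟩ := hle'
    exact ⟨u, hu, fun y hy => hu0 y (hvan y hy)⟩

end Pool.Agent.U247.TP
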